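import Mathlib
import Pool.Agent.Y245.SC.Stm

/-!
Project SC (helper245), part PIC: Picard iteration on a disc.
-/

set_option autoImplicit false

open Complex Set Metric Filter Topology

namespace Pool.Agent.Y381.SC

open Pool.Agent.Y245.SC

/-- points of the segment from the centre stay in the ball -/
theorem seg_mem {c z : ℂ} {r t : ℝ} (hz : z ∈ ball c r) (h0 : 0 ≤ t) (h1 : t ≤ 1) :
    c + t * (z - c) ∈ ball c r := by
  rw [mem_ball, dist_eq_norm] at hz ⊢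
  have : c + t * (z - c) - c = t * (z - c) := by ring
  rw [this, norm_mul, Complex.norm_real, Real.norm_of_nonneg h0]
  have h2 : 0 ≤ ‖z - c‖ := norm_nonneg _
  nlinarith

/-- Cauchy estimate for the third variable -/
theorem lip {ω1 : ℂ} {ρ M L : ℝ} {κ : ℂ × ℂ × ℂ → ℂ} (hM : 0 < M)
    (hκ : DifferentiableOn ℂ κ (ball ω1 ρ ×ˢ ball ω1 ρ ×ˢ ball 0 (3 * M)))
    (hκL : ∀ p ∈ ball ω1 ρ ×ˢ ball ω1 ρ ×ˢ ball 0 (3 * M), ‖κ p‖ ≤ L)
    {p q ξ ξ' : ℂ} (hp : p ∈ ball ω1 ρ) (hq : q ∈ ball ω1 ρ) (h1 : ‖ξ‖ ≤ 2 * M)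
    (h2 : ‖ξ'‖ ≤ 2 * M) : ‖κ (p, q, ξ) - κ (p, q, ξ')‖ ≤ L / (M / 2) * ‖ξ - ξ'‖ := by
  have hopen : IsOpen (ball ω1 ρ ×ˢ ball ω1 ρ ×ˢ ball (0 : ℂ) (3 * M)) :=
    isOpen_ball.prod (isOpen_ball.prod isOpen_ball)
  have hd : ∀ z ∈ ball (0 : ℂ) (3 * M), DifferentiableAt ℂ (fun z => κ (p, q, z)) z := by
    intro z hz
    have h3 : DifferentiableAt ℂ κ (p, q, z) := hκ.differentiableAt (hopen.mem_nhds ⟨hp, hq, hz⟩)
    have h4 : DifferentiableAt ℂ (fun z : ℂ => ((p, q, z) : ℂ × ℂ × ℂ)) z := by fun_prop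
    exact h3.comp z h4
  have hsub : closedBall (0 : ℂ) (2 * M) ⊆ ball 0 (3 * M) := by
    intro z hz
    rw [mem_closedBall] at hz
    rw [mem_ball]
    linarith
  refine Convex.norm_image_sub_le_of_norm_deriv_le (𝕜 := ℂ) (f := fun z => κ (p, q, z))
    (s := closedBall 0 (2 * M)) (fun z hz => hd z (hsub hz)) ?_ (convex_closedBall _ _)
    (by simpa using h2) (by simpa using h1)
  intro z hz
  have hz' : ‖z‖ ≤ 2 * M := by simpa using hz
  have hcb : closedBall z (M / 2) ⊆ ball 0 (3 * M) := by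
    intro w hw
    rw [mem_closedBall, dist_eq_norm] at hw
    rw [mem_ball, dist_zero_right]
    calc ‖w‖ = ‖(w - z) + z‖ := by ring_nf
      _ ≤ ‖w - z‖ + ‖z‖ := norm_add_le _ _
      _ < 3 * M := by linarith
  apply Complex.norm_deriv_le_of_forall_mem_sphere_norm_le (by positivity)
  · apply DifferentiableOn.diffContOnCl
    intro w hw
    refine (hd w (hcb ?_)).differentiableWithinAt
    exact closure_ball_subset_closedBall hw
  · intro w hw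
    exact hκL _ ⟨hp, hq, hcb (sphere_subset_closedBall hw)⟩

section

variable (ω1 : ℂ) (A : ℂ → ℂ) (κ : ℂ × ℂ × ℂ → ℂ)

/-- the operator -/
noncomputable def Op (G : ℂ → ℂ) (ω0 : ℂ) : ℂ := A ω0 + seg (fun ω => κ (ω, ω0, G ω)) ω1 ω0

variable {ω1 A κ} {ρ M L : ℝ}

theorem cont_seg (hκ : DifferentiableOn ℂ κ (ball ω1 ρ ×ˢ ball ω1 ρ ×ˢ ball 0 (3 * M)))
    (hM : 0 < M) {r : ℝ} (hr : r ≤ ρ) {G : ℂ → ℂ} (hG : ContinuousOn G (ball ω1 r))
    (hGM : ∀ ω ∈ ball ω1 r, ‖G ω‖ ≤ 2 * M) {z : ℂ} (hz : z ∈ ball ω1 r) :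
    ContinuousOn (fun t : ℝ => κ (ω1 + t * (z - ω1), z, G (ω1 + t * (z - ω1))) * (z - ω1))
      (Icc 0 1) := by
  have h1 : ContinuousOn (fun t : ℝ => ω1 + (t : ℂ) * (z - ω1)) (Icc 0 1) := by fun_prop
  have hm : ∀ t ∈ Icc (0 : ℝ) 1, ω1 + (t : ℂ) * (z - ω1) ∈ ball ω1 r :=
    fun t ht => seg_mem hz ht.1 ht.2
  have h2 : ContinuousOn (fun t : ℝ => G (ω1 + (t : ℂ) * (z - ω1))) (Icc 0 1) :=
    hG.comp h1 hm
  have h3 : ContinuousOn (fun t : ℝ => ((ω1 + (t : ℂ) * (z - ω1), z,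
      G (ω1 + (t : ℂ) * (z - ω1))) : ℂ × ℂ × ℂ)) (Icc 0 1) :=
    h1.prodMk (continuousOn_const.prodMk h2)
  have h4 : ContinuousOn (fun t : ℝ => κ (ω1 + (t : ℂ) * (z - ω1), z,
      G (ω1 + (t : ℂ) * (z - ω1)))) (Icc 0 1) := by
    refine hκ.continuousOn.comp h3 ?_
    intro t ht
    refine ⟨ball_subset_ball hr (hm t ht), ball_subset_ball hr hz, ?_⟩
    rw [mem_ball, dist_zero_right]
    have := hGM _ (hm t ht)
    change ‖G (ω1 + (t : ℂ) * (z - ω1))‖ < 3 * M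
    linarith
  exact h4.mul continuousOn_const

/-- the contraction estimate -/
theorem contr (hM : 0 < M) (hL : 0 ≤ L) (hρL : ρ * L ≤ M / 8)
    (hκ : DifferentiableOn ℂ κ (ball ω1 ρ ×ˢ ball ω1 ρ ×ˢ ball 0 (3 * M)))
    (hκL : ∀ p ∈ ball ω1 ρ ×ˢ ball ω1 ρ ×ˢ ball 0 (3 * M), ‖κ p‖ ≤ L)
    {r : ℝ} (hr : r ≤ ρ) {G G' : ℂ → ℂ} (hG : ContinuousOn G (ball ω1 r))
    (hG' : ContinuousOn G' (ball ω1 r))
    (hGM : ∀ ω ∈ ball ω1 r, ‖G ω‖ ≤ 2 * M) (hGM' : ∀ ω ∈ ball ω1 r, ‖G' ω‖ ≤ 2 * M)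
    {D : ℝ} (hD : ∀ ω ∈ ball ω1 r, ‖G ω - G' ω‖ ≤ D) {z : ℂ} (hz : z ∈ ball ω1 r) :
    ‖Op ω1 A κ G z - Op ω1 A κ G' z‖ ≤ D / 4 := by
  have hD0 : 0 ≤ D := (norm_nonneg _).trans (hD z hz)
  have hzn : ‖z - ω1‖ < r := by rwa [mem_ball, dist_eq_norm] at hz
  have hρ : 0 < ρ := ((norm_nonneg _).trans_lt hzn).trans_le hr
  have c1 := cont_seg hκ hM hr hG hGM hz
  have c2 := cont_seg hκ hM hr hG' hGM' hz
  have i1 : IntervalIntegrable
      (fun t : ℝ => κ (ω1 + t * (z - ω1), z, G (ω1 + t * (z - ω1))) * (z - ω1))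
      MeasureTheory.volume 0 1 := by
    apply ContinuousOn.intervalIntegrable
    rwa [uIcc_of_le zero_le_one]
  have i2 : IntervalIntegrable
      (fun t : ℝ => κ (ω1 + t * (z - ω1), z, G' (ω1 + t * (z - ω1))) * (z - ω1))
      MeasureTheory.volume 0 1 := by
    apply ContinuousOn.intervalIntegrable
    rwa [uIcc_of_le zero_le_one]
  have h1 : Op ω1 A κ G z - Op ω1 A κ G' z
      = ∫ t in (0 : ℝ)..1, (κ (ω1 + t * (z - ω1), z, G (ω1 + t * (z - ω1))) * (z - ω1)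
        - κ (ω1 + t * (z - ω1), z, G' (ω1 + t * (z - ω1))) * (z - ω1)) := by
    rw [intervalIntegral.integral_sub i1 i2]
    unfold Op seg
    ring
  rw [h1]
  have h2 : ‖∫ t in (0 : ℝ)..1, (κ (ω1 + t * (z - ω1), z, G (ω1 + t * (z - ω1))) * (z - ω1)
        - κ (ω1 + t * (z - ω1), z, G' (ω1 + t * (z - ω1))) * (z - ω1))‖
      ≤ (L / (M / 2) * D * ρ) * |(1 : ℝ) - 0| := by
    apply intervalIntegral.norm_integral_le_of_norm_le_const
    intro t ht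
    rw [uIoc_of_le zero_le_one] at ht
    have hm := seg_mem hz ht.1.le ht.2
    rw [← sub_mul, norm_mul]
    have h3 := lip hM hκ hκL (ball_subset_ball hr hm) (ball_subset_ball hr hz)
      (hGM _ hm) (hGM' _ hm)
    have h4 := hD _ hm
    have h5 : 0 ≤ L / (M / 2) := by positivity
    calc _ ≤ (L / (M / 2) * D) * ρ := by
          apply mul_le_mul _ (hzn.le.trans hr) (norm_nonneg _) (by positivity)
          exact h3.trans (mul_le_mul_of_nonneg_left h4 h5)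
      _ = _ := rfl
  refine h2.trans ?_
  rw [sub_zero, abs_one, mul_one]
  have h6 : L / (M / 2) * D * ρ = (ρ * L) * (2 * D / M) := by field_simp
  rw [h6]
  calc (ρ * L) * (2 * D / M) ≤ M / 8 * (2 * D / M) := by
        apply mul_le_mul_of_nonneg_right hρL (by positivity)
    _ = D / 4 := by field_simp; ring

theorem op_bound (hρ : 0 < ρ) (hM : 0 < M) (hρL : ρ * L ≤ M / 8) (hL : 0 ≤ L)
    (hA : ∀ ω ∈ ball ω1 ρ, ‖A ω‖ ≤ M)
    (hκL : ∀ p ∈ ball ω1 ρ ×ˢ ball ω1 ρ ×ˢ ball 0 (3 * M), ‖κ p‖ ≤ L)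
    {G : ℂ → ℂ} (hGM : ∀ ω ∈ ball ω1 ρ, ‖G ω‖ ≤ 2 * M) {z : ℂ} (hz : z ∈ ball ω1 ρ) :
    ‖Op ω1 A κ G z‖ ≤ 2 * M := by
  have hzn : ‖z - ω1‖ < ρ := by rwa [mem_ball, dist_eq_norm] at hz
  have h2 : ‖∫ t in (0 : ℝ)..1, κ (ω1 + t * (z - ω1), z, G (ω1 + t * (z - ω1))) * (z - ω1)‖
      ≤ (L * ρ) * |(1 : ℝ) - 0| := by
    apply intervalIntegral.norm_integral_le_of_norm_le_const
    intro t ht
    rw [uIoc_of_le zero_le_one] at ht
    have hm := seg_mem hz ht.1.le ht.2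
    rw [norm_mul]
    apply mul_le_mul _ hzn.le (norm_nonneg _) hL
    apply hκL
    refine ⟨hm, hz, ?_⟩
    rw [mem_ball, dist_zero_right]
    have := hGM _ hm
    change ‖G (ω1 + (t : ℂ) * (z - ω1))‖ < 3 * M
    linarith
  rw [sub_zero, abs_one, mul_one] at h2
  have h3 := hA z hz
  unfold Op seg
  refine (norm_add_le _ _).trans ?_
  nlinarith

theorem op_diff (hP : S_PAR) (hM : 0 < M) (hA : DifferentiableOn ℂ A (ball ω1 ρ))
    (hκ : DifferentiableOn ℂ κ (ball ω1 ρ ×ˢ ball ω1 ρ ×ˢ ball 0 (3 * M)))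
    {G : ℂ → ℂ} (hG : DifferentiableOn ℂ G (ball ω1 ρ))
    (hGM : ∀ ω ∈ ball ω1 ρ, ‖G ω‖ ≤ 2 * M) :
    DifferentiableOn ℂ (Op ω1 A κ G) (ball ω1 ρ) := by
  unfold Op seg
  refine hA.add ?_
  have hlt : ∀ w ∈ ball ω1 ρ, G w ∈ ball (0 : ℂ) (3 * M) := by
    intro w hw
    rw [mem_ball, dist_zero_right]
    have := hGM w hw
    linarith
  apply hP (ball ω1 ρ)
    (fun z t => κ (ω1 + t * (z - ω1), z, G (ω1 + t * (z - ω1))) * (z - ω1)) isOpen_ball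
  · have h1 : ContinuousOn (fun p : ℂ × ℝ => ω1 + (p.2 : ℂ) * (p.1 - ω1))
        (ball ω1 ρ ×ˢ Icc (0 : ℝ) 1) := by fun_prop
    have hm : ∀ p ∈ ball ω1 ρ ×ˢ Icc (0 : ℝ) 1, ω1 + (p.2 : ℂ) * (p.1 - ω1) ∈ ball ω1 ρ :=
      fun p hp => seg_mem hp.1 hp.2.1 hp.2.2
    have h2 : ContinuousOn (fun p : ℂ × ℝ => G (ω1 + (p.2 : ℂ) * (p.1 - ω1)))
        (ball ω1 ρ ×ˢ Icc (0 : ℝ) 1) := hG.continuousOn.comp h1 hm
    have h3 : ContinuousOn (fun p : ℂ × ℝ => ((ω1 + (p.2 : ℂ) * (p.1 - ω1), p.1,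
        G (ω1 + (p.2 : ℂ) * (p.1 - ω1))) : ℂ × ℂ × ℂ)) (ball ω1 ρ ×ˢ Icc (0 : ℝ) 1) :=
      h1.prodMk (continuousOn_fst.prodMk h2)
    have h4 : ContinuousOn (fun p : ℂ × ℝ => κ (ω1 + (p.2 : ℂ) * (p.1 - ω1), p.1,
        G (ω1 + (p.2 : ℂ) * (p.1 - ω1)))) (ball ω1 ρ ×ˢ Icc (0 : ℝ) 1) := by
      refine hκ.continuousOn.comp h3 ?_
      intro p hp
      exact ⟨hm p hp, hp.1, hlt _ (hm p hp)⟩
    exact h4.mul (continuousOn_fst.sub continuousOn_const)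
  · intro t ht
    have h1 : DifferentiableOn ℂ (fun z : ℂ => ω1 + (t : ℂ) * (z - ω1)) (ball ω1 ρ) := by
      fun_prop
    have hm : ∀ z ∈ ball ω1 ρ, ω1 + (t : ℂ) * (z - ω1) ∈ ball ω1 ρ :=
      fun z hz => seg_mem hz ht.1 ht.2
    have h2 : DifferentiableOn ℂ (fun z : ℂ => G (ω1 + (t : ℂ) * (z - ω1))) (ball ω1 ρ) :=
      hG.comp h1 hm
    have h3 : DifferentiableOn ℂ (fun z : ℂ => ((ω1 + (t : ℂ) * (z - ω1), z,
        G (ω1 + (t : ℂ) * (z - ω1))) : ℂ × ℂ × ℂ)) (ball ω1 ρ) :=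
      h1.prodMk (differentiableOn_id.prodMk h2)
    have h4 : DifferentiableOn ℂ (fun z : ℂ => κ (ω1 + (t : ℂ) * (z - ω1), z,
        G (ω1 + (t : ℂ) * (z - ω1)))) (ball ω1 ρ) := by
      refine hκ.comp h3 ?_
      intro z hz
      exact ⟨hm z hz, hz, hlt _ (hm z hz)⟩
    exact h4.mul (differentiableOn_id.sub (differentiableOn_const _))

end

/-- Picard iteration: local solutions extend to a disc of uniform size -/
theorem pic : S_PIC := by
  intro hP ω1 ρ δ M L A κ F hδ hδρ hM hL hρL hA hAM hκ hκL hF hFM hFe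
  have hρ : 0 < ρ := hδ.trans_le hδρ
  set Fn : ℕ → ℂ → ℂ := fun n => (Op ω1 A κ)^[n] (fun _ => 0) with hFn
  have hsucc : ∀ n, Fn (n + 1) = Op ω1 A κ (Fn n) := by
    intro n
    simp only [hFn]
    rw [Function.iterate_succ_apply']
  have h0 : Fn 0 = fun _ => 0 := rfl
  have hdb : ∀ n, DifferentiableOn ℂ (Fn n) (ball ω1 ρ) ∧ ∀ ω ∈ ball ω1 ρ, ‖Fn n ω‖ ≤ 2 * M := by
    intro n
    induction n with
    | zero =>
      rw [h0]
      refine ⟨differentiableOn_const _, fun ω _ => ?_⟩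
      rw [norm_zero]
      positivity
    | succ n ih =>
      rw [hsucc]
      exact ⟨op_diff hP hM hA hκ ih.1 ih.2, fun ω hω => op_bound hρ hM hρL hL hAM hκL ih.2 hω⟩
  have hstep : ∀ n, ∀ ω ∈ ball ω1 ρ, ‖Fn n ω - Fn (n + 1) ω‖ ≤ 2 * M * (1 / 4) ^ n := by
    intro n
    induction n with
    | zero =>
      intro ω hω
      rw [h0, zero_sub, norm_neg, pow_zero, mul_one]
      exact (hdb 1).2 ω hω
    | succ n ih =>
      intro ω hω
      rw [hsucc n, hsucc (n + 1)]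
      have := contr (A := A) hM hL hρL hκ hκL le_rfl (hdb n).1.continuousOn
        (hdb (n + 1)).1.continuousOn (hdb n).2 (hdb (n + 1)).2 ih hω
      refine this.trans (le_of_eq ?_)
      rw [pow_succ]
      ring
  have hloc : ∀ n, ∀ ω ∈ ball ω1 δ, ‖Fn n ω - F ω‖ ≤ M * (1 / 4) ^ n := by
    intro n
    induction n with
    | zero =>
      intro ω hω
      rw [h0, zero_sub, norm_neg, pow_zero, mul_one]
      exact hFM ω hω
    | succ n ih =>
      intro ω hω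
      have hb := ball_subset_ball hδρ (x := ω1)
      have h1 : F ω = Op ω1 A κ F ω := hFe ω hω
      rw [hsucc n, h1]
      have := contr (A := A) hM hL hρL hκ hκL hδρ ((hdb n).1.continuousOn.mono hb)
        hF.continuousOn (fun ω hω => (hdb n).2 ω (hb hω))
        (fun ω hω => (hFM ω hω).trans (by linarith)) ih hω
      refine this.trans (le_of_eq ?_)
      rw [pow_succ]
      ring
  have hlim : ∀ ω ∈ ball ω1 ρ, ∃ a, Tendsto (fun n => Fn n ω) atTop (𝓝 a) := by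
    intro ω hω
    apply cauchySeq_tendsto_of_complete
    apply cauchySeq_of_le_geometric (1 / 4) (2 * M) (by norm_num)
    intro n
    rw [dist_eq_norm]
    exact hstep n ω hω
  choose! F' hF' using hlim
  refine ⟨F', ?_, ?_, ?_⟩
  · have hu : TendstoUniformlyOn Fn F' atTop (ball ω1 ρ) := by
      rw [Metric.tendstoUniformlyOn_iff]
      intro ε hε
      have ht : Tendsto (fun n : ℕ => 2 * M * (1 / 4 : ℝ) ^ n / (1 - 1 / 4)) atTop (𝓝 0) := by
        have h1 : Tendsto (fun n : ℕ => (1 / 4 : ℝ) ^ n) atTop (𝓝 0) :=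
          tendsto_pow_atTop_nhds_zero_of_lt_one (by norm_num) (by norm_num)
        have h2 := (h1.const_mul (2 * M)).div_const (1 - 1 / 4)
        simpa using h2
      filter_upwards [ht.eventually (gt_mem_nhds hε)] with n hn ω hω
      rw [dist_comm]
      refine lt_of_le_of_lt ?_ hn
      apply dist_le_of_le_geometric_of_tendsto (1 / 4) (2 * M) (by norm_num) _ (hF' ω hω)
      intro k
      rw [dist_eq_norm]
      exact hstep k ω hω
    exact hu.tendstoLocallyUniformlyOn.differentiableOn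
      (Eventually.of_forall fun n => (hdb n).1) isOpen_ball
  · intro ω hω
    refine le_of_tendsto (hF' ω hω).norm (Eventually.of_forall fun n => ?_)
    exact (hdb n).2 ω hω
  · intro ω hω
    refine tendsto_nhds_unique (hF' ω (ball_subset_ball hδρ hω)) ?_
    rw [tendsto_iff_norm_sub_tendsto_zero]
    have h1 : Tendsto (fun n : ℕ => M * (1 / 4 : ℝ) ^ n) atTop (𝓝 0) := by
      have := (tendsto_pow_atTop_nhds_zero_of_lt_one (r := (1 / 4 : ℝ)) (by norm_num)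
        (by norm_num)).const_mul M
      simpa using this
    exact squeeze_zero (fun n => norm_nonneg _) (fun n => hloc n ω hω) h1

end Pool.Agent.Y381.SC
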